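import Pool.Agent.Helper85_MWX.PD

/-!
# With `R'` and without `L` the last token of `y` is crossed by a residue (block MWX)

Letters `x = 0`, `y = 1`, separators `2`, `3`, `4`; `U c d e f = y t x^c y x^d s x^e r x^f`.
-/

set_option autoImplicit false

namespace Pool.Agent.MWX.H85

open Pool.Agent.Helper14_MV Pool.Agent.Helper2_MV Pool.Agent.Helper79_MWD Pool.Agent.MVD

variable {β : FIC} {n : ℕ}

/-- `x^q t x^m s x^p` -/
def F3 (q m p : ℕ) : List ℕ := Z q ++ 2 :: (Z m ++ 3 :: Z p)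

theorem hb (H : LL n β) {q : ℕ} (hq : 2 ≤ q) (m : ℕ) (T S : List ℕ) :
    RR β (Z q ++ (T ++ (Z m ++ S))) (Z q ++ (T ++ (Z (m * (n + 1)) ++ S))) := by
  rcases m with _ | _ | m
  · rw [Nat.zero_mul]
    exact RR.refl _
  · obtain ⟨i, rfl⟩ : ∃ i, q = i + 2 := ⟨q - 2, by omega⟩
    have h1 := rr_right S (r_ctx H i T)
    rw [show 0 + 1 = 1 by rfl, Nat.one_mul]
    simpa only [List.append_assoc] using h1
  · have h1 : RR β (Z (m + 1 + 1)) (Z ((m + 1 + 1) * (n + 1))) := by
      have e : (m + 1 + 1) * (n + 1) = (m + 1 + 1) + n * (m + 1 + 1) := by ring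
      apply zcap H (by omega) (by rw [e]; omega)
      rw [e]
      exact (Nat.modEq_iff_dvd' (by omega)).2 ⟨m + 1 + 1, by omega⟩
    have h2 := rr_left (Z q ++ T) (rr_right S h1)
    simpa only [List.append_assoc] using h2

theorem hb' (H : LL n β) (hR : RR β (Z 1 ++ 2 :: Z 2) (Z (n + 1) ++ 2 :: Z 2)) {q : ℕ}
    (hq : 2 ≤ q) (m : ℕ) (P T S : List ℕ) :
    RR β (P ++ (Z m ++ (T ++ (Z q ++ S)))) (P ++ (Z (m * (n + 1)) ++ (T ++ (Z q ++ S)))) := by
  apply rr_left P
  rcases m with _ | _ | m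
  · rw [Nat.zero_mul]
    exact RR.refl _
  · obtain ⟨i, rfl⟩ : ∃ i, q = 2 + i := ⟨q - 2, by omega⟩
    have h1 := rr_right (Z i ++ S) (sub_t T hR)
    rw [show 0 + 1 = 1 by rfl, Nat.one_mul, z_add 2 i]
    simpa only [List.append_assoc] using h1
  · have h1 : RR β (Z (m + 1 + 1)) (Z ((m + 1 + 1) * (n + 1))) := by
      have e : (m + 1 + 1) * (n + 1) = (m + 1 + 1) + n * (m + 1 + 1) := by ring
      apply zcap H (by omega) (by rw [e]; omega)
      rw [e]
      exact (Nat.modEq_iff_dvd' (by omega)).2 ⟨m + 1 + 1, by omega⟩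
    exact rr_right (T ++ (Z q ++ S)) h1

/-- a heavy entry makes all entries heavy -/
theorem f3_h (H : LL n β) (hR : RR β (Z 1 ++ 2 :: Z 2) (Z (n + 1) ++ 2 :: Z 2)) {q m p : ℕ}
    (h : 2 ≤ q ∨ 2 ≤ m ∨ 2 ≤ p) :
    RR β (F3 q m p) (F3 (q * (n + 1)) (m * (n + 1)) (p * (n + 1))) := by
  have big : ∀ i, 2 ≤ i → 2 ≤ i * (n + 1) := fun i hi => by nlinarith
  have cp : ∀ i, 2 ≤ i → RR β (Z i) (Z (i * (n + 1))) := by
    intro i hi
    have e : i * (n + 1) = i + n * i := by ring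
    apply zcap H hi (big i hi)
    rw [e]
    exact (Nat.modEq_iff_dvd' (by omega)).2 ⟨i, by omega⟩
  unfold F3
  rcases h with h | h | h
  · have s1 := rr_right (2 :: (Z m ++ 3 :: Z p)) (cp q h)
    have s2 := hb H (big q h) m [2] (3 :: Z p)
    have s3 := hb H (big q h) p (2 :: (Z (m * (n + 1)) ++ [3])) []
    simp only [List.append_assoc, List.cons_append, List.nil_append, List.append_nil] at s2 s3
    exact RR.tr s1 (RR.tr s2 s3)
  · have s1 := rr_left (Z q ++ [2]) (rr_right (3 :: Z p) (cp m h))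
    have s2 := hb' H hR (big m h) q [] [2] (3 :: Z p)
    have s3 := rr_left (Z (q * (n + 1)) ++ [2]) (hb H (big m h) p [3] [])
    simp only [List.append_assoc, List.cons_append, List.nil_append, List.append_nil] at s1 s2 s3
    exact RR.tr s1 (RR.tr s2 s3)
  · have s1 := rr_left (Z q ++ 2 :: (Z m ++ [3])) (cp p h)
    have s2 := hb' H hR (big p h) m (Z q ++ [2]) [3] []
    have s3 := hb' H hR (big p h) q [] (2 :: (Z (m * (n + 1)) ++ [3])) []
    simp only [List.append_assoc, List.cons_append, List.nil_append, List.append_nil] at s1 s2 s3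
    exact RR.tr s1 (RR.tr s2 s3)

theorem f3_sub {g : ℕ → List ℕ} {e : ℕ} (h : g 0 = Z e) (q m p : ℕ) :
    (F3 q m p).flatMap g = Z (q * e) ++ (g 2 ++ (Z (m * e) ++ (g 3 ++ Z (p * e)))) := by
  unfold F3
  rw [List.flatMap_append, List.flatMap_cons, List.flatMap_append, List.flatMap_cons, fmz h, fmz h,
    fmz h]

/-- **the vector `(1, 1, 1)` is rigid without `L`** -/
theorem one3 (H : LL n β) (hR : RR β (Z 1 ++ 2 :: Z 2) (Z (n + 1) ++ 2 :: Z 2))
    (hL : ¬ RR β (F3 1 1 1) (F3 (n + 1) (n + 1) (n + 1))) {q m p : ℕ}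
    (h : RR β (F3 1 1 1) (F3 q m p)) : q = 1 ∧ m = 1 ∧ p = 1 := by
  have h3 : RR β (F3 (1 * (n + 1)) (1 * (n + 1)) (1 * (n + 1)))
      (F3 (q * (n + 1)) (m * (n + 1)) (p * (n + 1))) := by
    have h1 := RR.sub (fun c => if c = 0 then Z (n + 1) else [c]) h
    rw [f3_sub (e := n + 1) (by rfl), f3_sub (e := n + 1) (by rfl)] at h1
    exact h1
  rw [Nat.one_mul] at h3
  have hall : ¬ (2 ≤ q ∨ 2 ≤ m ∨ 2 ≤ p) := by
    intro hh
    exact hL (RR.tr h (RR.tr (f3_h H hR hh) h3.symm))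
  have s0 : RR β (Z 3) (Z (q + (m + p))) := by
    have h1 := RR.sub (fun c => if c = 0 then [0] else []) h
    rw [f3_sub (e := 1) (by rfl), f3_sub (e := 1) (by rfl)] at h1
    simp only [Nat.mul_one] at h1
    rw [z_add q, z_add m]
    exact h1
  have s1 := lin0 H.iso s0 (by omega)
  have a1 : RR β (Z 1 ++ 2 :: Z 2) (Z q ++ 2 :: Z (m + p)) := by
    have h1 := RR.sub (fun c => if c = 3 then [] else [c]) h
    rw [f3_sub (e := 1) (by rfl), f3_sub (e := 1) (by rfl)] at h1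
    simp only [Nat.mul_one] at h1
    rw [z_add m p]
    exact h1
  have a2 : RR β (Z 2 ++ 2 :: Z 1) (Z (q + m) ++ 2 :: Z p) := by
    have h1 := RR.sub (fun c => if c = 2 then [] else if c = 3 then [2] else [c]) h
    rw [f3_sub (e := 1) (by rfl), f3_sub (e := 1) (by rfl)] at h1
    simp only [Nat.mul_one] at h1
    rw [z_add q m, List.append_assoc]
    exact h1
  by_contra hne
  have hc : (q = 1 ∧ m + p = 1) ∨ (q + m = 1 ∧ p = 1) := by omega
  rcases hc with ⟨h5, h6⟩ | ⟨h5, h6⟩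
  · rw [h5, h6] at a1
    have h7 := congrArg List.length (iso_aba H.iso (by decide) (RR.symm a1 : RR β [0, 2, 0] _))
    simp at h7
  · rw [h5, h6] at a2
    have h7 := congrArg List.length (iso_aba H.iso (by decide) (RR.symm a2 : RR β [0, 2, 0] _))
    simp at h7

/-! ### the words -/

def U (c d e f : ℕ) : List ℕ := 1 :: 2 :: (Z c ++ 1 :: (Z d ++ 3 :: (Z e ++ 4 :: Z f)))

/-- the general word over `y t y s r` -/
def V6 (i j k l m p : ℕ) : List ℕ :=
  Z i ++ 1 :: (Z j ++ 2 :: (Z k ++ 1 :: (Z l ++ 3 :: (Z m ++ 4 :: Z p))))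

theorem v6_shape (H : Iso3 β) {w w' : List ℕ}
    (hw : w.filter (fun x => decide (x ≠ 0)) = [1, 2, 1, 3, 4]) (h : RR β w w') :
    ∃ i j k l m p, w' = V6 i j k l m p := by
  have h1 := h.filter (fun x => decide (x ≠ 0))
  rw [hw] at h1
  have h2 : w'.filter (fun x => decide (x ≠ 0)) = [1, 2, 1, 3, 4] :=
    rig_snoc H (w := [1, 2, 1]) (b := 3) (c := 4) (by decide) (by decide) (by decide)
      (fun l hl => rig4 H (by decide) (by decide) (by decide) hl) h1
  obtain ⟨i, w1, e1, h3⟩ := peel h2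
  obtain ⟨j, w2, e2, h4⟩ := peel h3
  obtain ⟨k, w3, e3, h5⟩ := peel h4
  obtain ⟨l, w4, e4, h6⟩ := peel h5
  obtain ⟨m, w5, e5, h7⟩ := peel h6
  obtain ⟨p, e6⟩ := peel0 h7
  exact ⟨i, j, k, l, m, p, by rw [e1, e2, e3, e4, e5, e6]; rfl⟩

theorem v6_filter0 (i j k l m p : ℕ) :
    (V6 i j k l m p).filter (fun x => decide (x ≠ 0)) = [1, 2, 1, 3, 4] := by
  unfold V6
  rw [List.filter_append, List.filter_cons_of_pos (by simp), List.filter_append,
    List.filter_cons_of_pos (by simp), List.filter_append, List.filter_cons_of_pos (by simp),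
    List.filter_append, List.filter_cons_of_pos (by simp), List.filter_append,
    List.filter_cons_of_pos (by simp), z_filter, z_filter, z_filter, z_filter, z_filter, z_filter]
  rfl

theorem v6_filter1 (i j k l m p : ℕ) :
    (V6 i j k l m p).filter (fun x => decide (x ≠ 1)) =
      Z (i + j) ++ 2 :: (Z (k + l) ++ 3 :: (Z m ++ 4 :: Z p)) := by
  unfold V6
  rw [List.filter_append, List.filter_cons_of_neg (by simp), List.filter_append,
    List.filter_cons_of_pos (by simp), List.filter_append, List.filter_cons_of_neg (by simp),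
    List.filter_append, List.filter_cons_of_pos (by simp), List.filter_append,
    List.filter_cons_of_pos (by simp), z_f1, z_f1, z_f1, z_f1, z_f1, z_f1, z_add, z_add]
  simp only [List.append_assoc]

theorem v6_sub {g : ℕ → List ℕ} (h : g 0 = [0]) (i j k l m p : ℕ) :
    (V6 i j k l m p).flatMap g = Z i ++ (g 1 ++ (Z j ++ (g 2 ++ (Z k ++ (g 1 ++ (Z l ++
      (g 3 ++ (Z m ++ (g 4 ++ Z p))))))))) := by
  unfold V6
  rw [List.flatMap_append, List.flatMap_cons, List.flatMap_append, List.flatMap_cons,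
    List.flatMap_append, List.flatMap_cons, List.flatMap_append, List.flatMap_cons,
    List.flatMap_append, List.flatMap_cons, z_sub h, z_sub h, z_sub h, z_sub h, z_sub h, z_sub h]

theorem v6_V {i j k l m p i' j' k' l' m' p' : ℕ}
    (h : RR β (V6 i j k l m p) (V6 i' j' k' l' m' p')) :
    RR β (V i j k (l + (m + p))) (V i' j' k' (l' + (m' + p'))) := by
  have h1 := RR.sub (fun c => if c = 3 then [] else if c = 4 then [] else [c]) h
  rw [v6_sub (by rfl), v6_sub (by rfl)] at h1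
  unfold V
  rw [z_add l, z_add m, z_add l', z_add m']
  simpa using h1

/-- change of the length of a run -/
theorem ins5 {M N : List ℕ} {c d g f e : ℕ} (e' : ℕ) (he : 1 ≤ e)
    (h : M ++ (Z e ++ N) = U c d g f) :
    ∃ c' d' g' f', M ++ (Z e' ++ N) = U c' d' g' f' ∧ (c' = c ∨ c' + e = c + e') := by
  have h1 : M ++ (Z e ++ N) =
      Z 0 ++ 1 :: (Z 0 ++ 2 :: (Z c ++ 1 :: (Z d ++ 3 :: (Z g ++ 4 :: Z f)))) := h
  rcases st (by omega) h1 with ⟨M1, rfl, h2⟩ | ⟨m, q, _, _, h2⟩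
  · rcases st (by omega) h2.symm with ⟨M2, rfl, h3⟩ | ⟨m, q, _, _, h3⟩
    · rcases st (by omega) h3.symm with ⟨M3, rfl, h4⟩ | ⟨m, q, rfl, rfl, h4⟩
      · rcases st (by omega) h4.symm with ⟨M4, rfl, h5⟩ | ⟨m, q, rfl, rfl, h5⟩
        · rcases st (by omega) h5.symm with ⟨M5, rfl, h6⟩ | ⟨m, q, rfl, rfl, h6⟩
          · obtain ⟨m, q, rfl, rfl, h7⟩ := st0 h6.symm
            refine ⟨c, d, g, m + e' + q, ?_, Or.inl rfl⟩
            unfold U
            rw [z_add (m + e') q, z_add m e']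
            simp only [List.replicate_zero, List.nil_append, List.append_assoc, List.cons_append]
          · refine ⟨c, d, m + e' + q, f, ?_, Or.inl rfl⟩
            unfold U
            rw [z_add (m + e') q, z_add m e']
            simp only [List.replicate_zero, List.nil_append, List.append_assoc, List.cons_append]
        · refine ⟨c, m + e' + q, g, f, ?_, Or.inl rfl⟩
          unfold U
          rw [z_add (m + e') q, z_add m e']
          simp only [List.replicate_zero, List.nil_append, List.append_assoc, List.cons_append]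
      · refine ⟨m + e' + q, d, g, f, ?_, Or.inr (by omega)⟩
        unfold U
        rw [z_add (m + e') q, z_add m e']
        simp only [List.replicate_zero, List.nil_append, List.append_assoc, List.cons_append]
    · omega
  · omega

theorem u_v6 (c d e f : ℕ) : U c d e f = V6 0 0 c d e f := rfl

theorem u_count (c d e f : ℕ) : (U c d e f).count 0 = c + (d + (e + f)) := by
  unfold U
  simp only [List.count_cons, List.count_append, List.count_replicate]
  simp

theorem three0' {w : List ℕ} (h : w.filter (fun x => decide (x ≠ 0)) = [1, 2, 1, 3, 4]) {x : ℕ}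
    (h3 : 3 ≤ w.count x) : x = 0 := by
  by_contra hx
  rw [cnt_f h hx] at h3
  simp only [List.count_cons, List.count_nil, beq_iff_eq] at h3
  split_ifs at h3 <;> omega

theorem two01' {w : List ℕ} (h : w.filter (fun x => decide (x ≠ 0)) = [1, 2, 1, 3, 4]) {x : ℕ}
    (h3 : 2 ≤ w.count x) : x = 0 ∨ x = 1 := by
  by_contra hx
  push Not at hx
  rw [cnt_f h hx.1] at h3
  simp only [List.count_cons, List.count_nil, beq_iff_eq] at h3
  split_ifs at h3 <;> omega

/-! ### the languages -/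

def QC (n : ℕ) (β : FIC) (w : List ℕ) : Prop :=
  ∃ c d e f, w = U c d e f ∧ PL n β (c + (n - 1))

def QB (n : ℕ) (β : FIC) (w : List ℕ) : Prop := QC n β w ∧ 2 ≤ w.count 0

def QT (w : List ℕ) : Prop :=
  w.filter (fun x => decide (x ≠ 0)) = [1, 2, 1, 3, 4] ∧
    w.filter (fun x => decide (x ≠ 1)) = Z 0 ++ 2 :: (Z 1 ++ 3 :: (Z 1 ++ 4 :: Z 1))

def QA (w : List ℕ) : Prop := w = U 1 0 1 1

theorem qab (H : LL n β) {w : List ℕ} (h : QA w) : QB n β w ∧ QT w := by
  unfold QA at h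
  subst h
  have hn := H.pos
  refine ⟨⟨⟨1, 0, 1, 1, rfl, ?_⟩, by decide⟩, by decide, by decide⟩
  refine pl_mod H pl_zero ?_
  exact (Nat.modEq_iff_dvd' (by omega)).2 ⟨1, by omega⟩

theorem qba (H : LL n β) (hr : ¬ Helper61_MWD.RC' (RR β)) {w : List ℕ} (h : QB n β w)
    (h' : QT w) : QA w := by
  obtain ⟨⟨c, d, e, f, rfl, hp⟩, _⟩ := h
  obtain ⟨_, h1⟩ := h'
  rw [u_v6, v6_filter1] at h1
  obtain ⟨_, h2⟩ := zeq' (by omega) h1
  obtain ⟨h3, h4⟩ := zeq' (by omega) h2
  obtain ⟨h5, h6⟩ := zeq' (by omega) h4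
  have h7 := zlen h6
  subst h5 h7
  rcases c with _ | c
  · exfalso
    rw [Nat.zero_add] at hp
    exact pl_no H hr hp
  · have hc : c = 0 := by omega
    have hd : d = 0 := by omega
    subst hc hd
    rfl

theorem qeepB (H : LL n β) (hr : ¬ Helper61_MWD.RC' (RR β)) {w w' : List ℕ} (h : RR β w w')
    (hw : QB n β w) : QB n β w' := by
  obtain ⟨⟨c, d, e, f, rfl, hp⟩, h2⟩ := hw
  rw [u_count] at h2
  have hn := H.pos
  obtain ⟨i, j, k, l, m, p, rfl⟩ := v6_shape H.iso (v6_filter0 0 0 c d e f) h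
  have hv := v6_V (i := 0) (j := 0) h
  have h0 : i + j = 0 := no_first H hr (del_a hv)
  have hi : i = 0 := by omega
  have hj : j = 0 := by omega
  subst hi hj
  have ht := lin0 H.iso (del_at hv) (by omega)
  refine ⟨⟨k, l, m, p, rfl, ?_⟩, ?_⟩
  · have h3 := pl_add hp (pl_of H hv.symm)
    refine pl_mod H h3 ?_
    obtain ⟨q, rfl⟩ : ∃ q, n = q + 1 := ⟨n - 1, by omega⟩
    rw [Nat.add_sub_cancel]
    have e1 : c + q + (k + q * c) = k + q + (q + 1) * c := by ring
    rw [e1]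
    exact ((Nat.modEq_iff_dvd' (by omega)).2 ⟨c, by omega⟩).symm
  · rw [← u_v6, u_count]
    omega

theorem qeepT (H : LL n β) (hr : ¬ Helper61_MWD.RC' (RR β))
    (hR : RR β (Z 1 ++ 2 :: Z 2) (Z (n + 1) ++ 2 :: Z 2))
    (hL : ¬ RR β (F3 1 1 1) (F3 (n + 1) (n + 1) (n + 1))) {w w' : List ℕ} (h : RR β w w')
    (hw : QT w) : QT w' := by
  obtain ⟨h0, h1⟩ := hw
  obtain ⟨i, j, k, l, m, p, rfl⟩ := v6_shape H.iso h0 h
  refine ⟨v6_filter0 _ _ _ _ _ _, ?_⟩
  have hf1 := h.filter (fun x => decide (x ≠ 1))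
  rw [h1, v6_filter1] at hf1
  have key : ∀ (g : ℕ → List ℕ), g 0 = [0] → ∀ a b c d,
      (Z a ++ 2 :: (Z b ++ 3 :: (Z c ++ 4 :: Z d))).flatMap g =
        Z a ++ (g 2 ++ (Z b ++ (g 3 ++ (Z c ++ (g 4 ++ Z d))))) := by
    intro g hg a b c d
    rw [List.flatMap_append, List.flatMap_cons, List.flatMap_append, List.flatMap_cons,
      List.flatMap_append, List.flatMap_cons, z_sub hg, z_sub hg, z_sub hg, z_sub hg]
  have g1 : RR β (Z 0 ++ 2 :: Z (1 + (1 + 1))) (Z (i + j) ++ 2 :: Z ((k + l) + (m + p))) := by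
    have h2 := RR.sub (fun c => if c = 3 then [] else if c = 4 then [] else [c]) hf1
    rw [key _ (by rfl), key _ (by rfl)] at h2
    rw [z_add 1, z_add 1, z_add (k + l), z_add m]
    simpa only [if_true, if_false, Nat.reduceEqDiff, List.append_assoc, List.cons_append,
      List.nil_append] using h2
  have hij := no_first H hr g1
  have g2 : RR β (F3 1 1 1) (F3 (k + l) m p) := by
    have h2 := RR.sub (fun c => if c = 2 then [] else if c = 3 then [2] else
      if c = 4 then [3] else [c]) hf1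
    rw [key _ (by rfl), key _ (by rfl), hij] at h2
    exact h2
  obtain ⟨g3, g4, g5⟩ := one3 H hR hL g2
  rw [v6_filter1, hij, g3, g4, g5]

theorem qeepA (H : LL n β) (hr : ¬ Helper61_MWD.RC' (RR β))
    (hR : RR β (Z 1 ++ 2 :: Z 2) (Z (n + 1) ++ 2 :: Z 2))
    (hL : ¬ RR β (F3 1 1 1) (F3 (n + 1) (n + 1) (n + 1))) {w w' : List ℕ} (h : RR β w w')
    (hw : QA w) : QA w' :=
  qba H hr (qeepB H hr h (qab H hw).1) (qeepT H hr hR hL h (qab H hw).2)

/-! ### the instances -/

/-- one change keeps `QC` -/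
theorem qc_step (H : LL n β) {e : ℕ} (he : 1 ≤ e) (M N : List ℕ) :
    QC n β (M ++ (Z e ++ N)) ↔ QC n β (M ++ (Z ((n + 1) * e) ++ N)) := by
  have hn := H.pos
  have hne : (n + 1) * e = n * e + e := by ring
  constructor
  · rintro ⟨c, d, g, f, h, hp⟩
    obtain ⟨c', d', g', f', g1, g2⟩ := ins5 ((n + 1) * e) he h
    refine ⟨c', d', g', f', g1, pl_mod H hp ?_⟩
    apply Nat.ModEq.add_right
    rcases g2 with g2 | g2
    · rw [g2]
    · exact (Nat.modEq_iff_dvd' (by omega)).2 ⟨e, by omega⟩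
  · rintro ⟨c, d, g, f, h, hp⟩
    obtain ⟨c', d', g', f', g1, g2⟩ := ins5 e (by omega) h
    refine ⟨c', d', g', f', g1, pl_mod H hp ?_⟩
    apply Nat.ModEq.add_right
    rcases g2 with g2 | g2
    · rw [g2]
    · exact ((Nat.modEq_iff_dvd' (by omega)).2 ⟨e, by omega⟩).symm

theorem qr_cnt (M N : List ℕ) {q m p : ℕ} (A B : List ℕ) :
    q + m + p ≤ (M ++ ((Z q ++ (A ++ (Z m ++ (B ++ Z p)))) ++ N)).count 0 := by
  simp only [List.count_append, List.count_replicate]
  simp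
  omega

/-- instances of `L` keep `QB` -/
theorem qtepR (H : LL n β) (φ : ℕ → List ℕ) (M N : List ℕ) :
    QB n β (M ++ ((F3 1 1 1).flatMap φ ++ N)) ↔
      QB n β (M ++ ((F3 (n + 1) (n + 1) (n + 1)).flatMap φ ++ N)) := by
  have hn := H.pos
  have c1 : 3 ≤ (F3 1 1 1).count 0 := by decide
  have c2 : 3 ≤ (F3 (n + 1) (n + 1) (n + 1)).count 0 := by
    unfold F3
    simp only [List.count_cons, List.count_append, List.count_replicate]
    simp
    omega
  have key : ∀ e, φ 0 = Z e →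
      (QB n β (M ++ ((F3 1 1 1).flatMap φ ++ N)) ↔
        QB n β (M ++ ((F3 (n + 1) (n + 1) (n + 1)).flatMap φ ++ N))) := by
    intro e he
    rw [f3_sub he, f3_sub he]
    rcases Nat.eq_zero_or_pos e with rfl | hpos
    · rw [Nat.mul_zero (n + 1)]
    have hne : (n + 1) * e = n * e + e := by ring
    have k1 := qr_cnt M N (q := 1 * e) (m := 1 * e) (p := 1 * e) (φ 2) (φ 3)
    have k2 := qr_cnt M N (q := (n + 1) * e) (m := (n + 1) * e) (p := (n + 1) * e) (φ 2) (φ 3)
    have q1 := qc_step H hpos M (φ 2 ++ (Z e ++ (φ 3 ++ (Z e ++ N))))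
    have q2 := qc_step H hpos (M ++ (Z ((n + 1) * e) ++ φ 2)) (φ 3 ++ (Z e ++ N))
    have q3 := qc_step H hpos (M ++ (Z ((n + 1) * e) ++ (φ 2 ++ (Z ((n + 1) * e) ++ φ 3)))) N
    have q : QC n β (M ++ ((Z (1 * e) ++ (φ 2 ++ (Z (1 * e) ++ (φ 3 ++ Z (1 * e))))) ++ N)) ↔
        QC n β (M ++ ((Z ((n + 1) * e) ++ (φ 2 ++ (Z ((n + 1) * e) ++
          (φ 3 ++ Z ((n + 1) * e))))) ++ N)) := by
      rw [Nat.one_mul]
      simp only [List.append_assoc] at q1 q2 q3 ⊢
      exact q1.trans (q2.trans q3)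
    unfold QB
    rw [q]
    constructor
    · rintro ⟨h1, _⟩
      exact ⟨h1, by nlinarith⟩
    · rintro ⟨h1, _⟩
      exact ⟨h1, by omega⟩
  constructor
  · intro h
    have h' := h
    obtain ⟨⟨c, d, g, f, hw, _⟩, _⟩ := h'
    have hz : ∀ x ∈ φ 0, x = 0 := fun x hx =>
      three0' (v6_filter0 0 0 c d g f) (le3 hw.symm c1 hx)
    exact (key _ (z_of' hz)).1 h
  · intro h
    have h' := h
    obtain ⟨⟨c, d, g, f, hw, _⟩, _⟩ := h'
    have hz : ∀ x ∈ φ 0, x = 0 := fun x hx =>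
      three0' (v6_filter0 0 0 c d g f) (le3 hw.symm c2 hx)
    exact (key _ (z_of' hz)).2 h

/-- the exchange of a single `x` with `y` -/
def J3l : List ℕ := [1, 2, 0, 1, 3, 0, 4, 0]
def J3r : List ℕ := [1, 2, 1, 0, 3, 0, 4, 0]

theorem j3l_sub (φ : ℕ → List ℕ) : J3l.flatMap φ =
    φ 1 ++ (φ 2 ++ (φ 0 ++ (φ 1 ++ (φ 3 ++ (φ 0 ++ (φ 4 ++ φ 0)))))) := by
  simp [J3l, List.flatMap_cons]

theorem j3r_sub (φ : ℕ → List ℕ) : J3r.flatMap φ =
    φ 1 ++ (φ 2 ++ (φ 1 ++ (φ 0 ++ (φ 3 ++ (φ 0 ++ (φ 4 ++ φ 0)))))) := by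
  simp [J3r, List.flatMap_cons]

theorem qtepT (φ : ℕ → List ℕ) (M N : List ℕ) :
    QT (M ++ (J3l.flatMap φ ++ N)) ↔ QT (M ++ (J3r.flatMap φ ++ N)) := by
  have key : (∀ x ∈ φ 0, x = 0) → (∀ x ∈ φ 1, x = 0 ∨ x = 1) →
      (QT (M ++ (J3l.flatMap φ ++ N)) ↔ QT (M ++ (J3r.flatMap φ ++ N))) := by
    intro h0 h1
    have h2 := exch_f (P := M ++ (φ 1 ++ φ 2)) (S := φ 3 ++ (φ 0 ++ (φ 4 ++ φ 0)) ++ N) h0 h1
    have e1 : M ++ (J3l.flatMap φ ++ N) =
        M ++ (φ 1 ++ φ 2) ++ (φ 0 ++ (φ 1 ++ (φ 3 ++ (φ 0 ++ (φ 4 ++ φ 0)) ++ N))) := by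
      rw [j3l_sub]
      simp only [List.append_assoc]
    have e2 : M ++ (J3r.flatMap φ ++ N) =
        M ++ (φ 1 ++ φ 2) ++ (φ 1 ++ (φ 0 ++ (φ 3 ++ (φ 0 ++ (φ 4 ++ φ 0)) ++ N))) := by
      rw [j3r_sub]
      simp only [List.append_assoc]
    rw [e1, e2]
    unfold QT
    rw [h2.1, h2.2]
  constructor
  · intro h
    exact (key (fun x hx => three0' h.1 (le3 rfl (z := 0) (by decide) hx))
      (fun x hx => two01' h.1 (le3 rfl (z := 1) (by decide) hx))).1 h
  · intro h
    exact (key (fun x hx => three0' h.1 (le3 rfl (z := 0) (by decide) hx))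
      (fun x hx => two01' h.1 (le3 rfl (z := 1) (by decide) hx))).2 h

theorem no_sq {P S : List ℕ} {k : ℕ} (hk : 2 ≤ k) (h : P ++ (Z k ++ S) = U 1 0 1 1) : False := by
  obtain ⟨j, rfl⟩ : ∃ j, k = 2 + j := ⟨k - 2, by omega⟩
  have h1 : [0, 0] <:+: U 1 0 1 1 := by
    refine ⟨P, Z j ++ S, ?_⟩
    rw [← h, z_add 2 j]
    simp [List.replicate_succ]
  revert h1
  decide

/-- the exchange of `x^(n+1)` with `y` -/
def K3l (n : ℕ) : List ℕ := U (n + 1) 0 (n + 1) (n + 1)
def K3r (n : ℕ) : List ℕ := U 0 (n + 1) (n + 1) (n + 1)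

theorem u_sub {φ : ℕ → List ℕ} {e : ℕ} (h : φ 0 = Z e) (c d g f : ℕ) : (U c d g f).flatMap φ =
    φ 1 ++ (φ 2 ++ (Z (c * e) ++ (φ 1 ++ (Z (d * e) ++ (φ 3 ++ (Z (g * e) ++ (φ 4 ++
      Z (f * e)))))))) := by
  unfold U
  rw [List.flatMap_cons, List.flatMap_cons, List.flatMap_append, List.flatMap_cons,
    List.flatMap_append, List.flatMap_cons, List.flatMap_append, List.flatMap_cons, fmz h, fmz h,
    fmz h, fmz h]

theorem qtepA (hn : 1 ≤ n) (φ : ℕ → List ℕ) (M N : List ℕ)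
    (h : QA (M ++ ((K3l n).flatMap φ ++ N)) ∨ QA (M ++ ((K3r n).flatMap φ ++ N))) :
    (K3l n).flatMap φ = (K3r n).flatMap φ := by
  have c0 : 3 ≤ (K3l n).count 0 := by
    unfold K3l
    rw [u_count]
    omega
  have c0' : 3 ≤ (K3r n).count 0 := by
    unfold K3r
    rw [u_count]
    omega
  have hz : ∀ x ∈ φ 0, x = 0 := by
    rcases h with h | h
    · exact fun x hx => three0' (v6_filter0 0 0 1 0 1 1) (le3 (Eq.symm h) c0 hx)
    · exact fun x hx => three0' (v6_filter0 0 0 1 0 1 1) (le3 (Eq.symm h) c0' hx)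
  have he := z_of' hz
  rcases Nat.eq_zero_or_pos (φ 0).length with h0 | hpos
  · rw [h0] at he
    unfold K3l K3r
    rw [u_sub he, u_sub he, Nat.mul_zero, Nat.mul_zero]
  · exfalso
    unfold K3l K3r at h
    rw [u_sub he, u_sub he] at h
    rcases h with h | h
    · have h1 : (M ++ (φ 1 ++ φ 2)) ++ (Z ((n + 1) * (φ 0).length) ++
          (φ 1 ++ (Z (0 * (φ 0).length) ++ (φ 3 ++ (Z ((n + 1) * (φ 0).length) ++ (φ 4 ++
            Z ((n + 1) * (φ 0).length))))) ++ N)) = U 1 0 1 1 := by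
        rw [← h]
        simp only [List.append_assoc]
      exact no_sq (by nlinarith) h1
    · have h1 : (M ++ (φ 1 ++ (φ 2 ++ (Z (0 * (φ 0).length) ++ φ 1)))) ++
          (Z ((n + 1) * (φ 0).length) ++ ((φ 3 ++ (Z ((n + 1) * (φ 0).length) ++ (φ 4 ++
            Z ((n + 1) * (φ 0).length)))) ++ N)) = U 1 0 1 1 := by
        rw [← h]
        simp only [List.append_assoc]
      exact no_sq (by nlinarith) h1

/-- **with `R'` and without `L` there is no variety without the crossing** -/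
theorem pj (H : LL n β) (hr : ¬ Helper61_MWD.RC' (RR β)) :
    RR β (F3 1 1 1) (F3 (n + 1) (n + 1) (n + 1)) := by
  by_contra hL
  have hR := pd H hr
  have hn := H.pos
  let J : List ℕ × List ℕ := (J3l, J3r)
  let K : List ℕ × List ℕ := (K3l n, K3r n)
  let R : List ℕ × List ℕ := (F3 1 1 1, F3 (n + 1) (n + 1) (n + 1))
  obtain ⟨ρ, hρ, gρ, mρ, pρ⟩ := H32.gen β (fun e => e = K)
  obtain ⟨σ, hσ, gσ, mσ, pσ⟩ := H32.gen β (fun e => e = R)
  obtain ⟨τ, hτ, gτ, mτ, pτ⟩ := H32.gen β (fun e => e = J)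
  have hJ : RR τ J3l J3r := gτ J rfl
  have hle : ρ ≤ τ := by
    refine mρ τ hτ ?_
    rintro e rfl
    show RR τ (U (n + 1) 0 (n + 1) (n + 1)) (U 0 (n + 1) (n + 1) (n + 1))
    have step : ∀ i j : ℕ, RR τ (U (i + 1) j (n + 1) (n + 1)) (U i (j + 1) (n + 1) (n + 1)) := by
      intro i j
      have h1 := rr_right (Z n) (RR.sub (fun c => if c = 2 then 2 :: Z i else
        if c = 3 then Z j ++ 3 :: Z n else [c]) hJ)
      have e1 : J3l.flatMap (fun c => if c = 2 then 2 :: Z i else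
          if c = 3 then Z j ++ 3 :: Z n else [c]) ++ Z n = U (i + 1) j (n + 1) (n + 1) := by
        rw [j3l_sub]
        unfold U
        rw [z_add i 1, z_add n 1]
        simp [List.replicate_succ]
        rw [← List.replicate_succ, List.replicate_succ']
      have e2 : J3r.flatMap (fun c => if c = 2 then 2 :: Z i else
          if c = 3 then Z j ++ 3 :: Z n else [c]) ++ Z n = U i (j + 1) (n + 1) (n + 1) := by
        rw [j3r_sub]
        unfold U
        rw [Nat.add_comm j 1, z_add 1 j, z_add n 1]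
        simp [List.replicate_succ]
        rw [← List.replicate_succ, List.replicate_succ']
      rw [e1, e2] at h1
      exact h1
    have chain : ∀ k i j : ℕ, RR τ (U (i + k) j (n + 1) (n + 1)) (U i (j + k) (n + 1) (n + 1)) := by
      intro k
      induction k with
      | zero => intro i j; exact RR.refl _
      | succ k ih =>
        intro i j
        have h1 := step (i + k) j
        have h2 := ih i (j + 1)
        rw [show j + 1 + k = j + (k + 1) by omega] at h2
        exact RR.tr h1 h2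
    have h1 := chain (n + 1) 0 0
    rw [Nat.zero_add] at h1
    exact h1
  have kA : ∀ w w', RR ρ w w' → QA w → QA w' := by
    apply pρ
    · intro w w' h hw
      exact qeepA H hr hR hL h hw
    · rintro e rfl φ M N
      constructor
      · intro h
        have h1 := qtepA hn φ M N (Or.inl h)
        change QA (M ++ ((K3r n).flatMap φ ++ N))
        rw [← h1]
        exact h
      · intro h
        have h1 := qtepA hn φ M N (Or.inr h)
        change QA (M ++ ((K3l n).flatMap φ ++ N))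
        rw [h1]
        exact h
  have kB : ∀ w w', RR σ w w' → QB n β w → QB n β w' := by
    apply pσ
    · intro w w' h hw
      exact qeepB H hr h hw
    · rintro e rfl φ M N
      exact qtepR H φ M N
  have kC : ∀ w w', RR τ w w' → QT w → QT w' := by
    apply pτ
    · intro w w' h hw
      exact qeepT H hr hR hL h hw
    · rintro e rfl φ M N
      exact qtepT φ M N
  have hA0 : QA J3l := rfl
  have hA1 : ¬ QA J3r := by
    unfold QA
    decide
  refine H21.pen β H.md ρ σ τ _ _ _ hρ hσ hτ hle kA kB kC (fun w h => qab H h)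
    (fun w h h' => qba H hr h h') J3l J3r hA0 hA1 hJ ?_
  have hRR : RR σ (F3 1 1 1) (F3 (n + 1) (n + 1) (n + 1)) := gσ R rfl
  have hK : RR ρ (K3l n) (K3r n) := gρ K rfl
  have s1 : RR σ J3l (K3l n) := by
    have h1 := rr_left [1, 2] (RR.sub (fun c => if c = 2 then [1, 3] else
      if c = 3 then [4] else [c]) hRR)
    rw [f3_sub (e := 1) (by rfl), f3_sub (e := 1) (by rfl)] at h1
    simp only [Nat.mul_one] at h1
    exact h1
  have s3 : RR σ J3r (K3r n) := by
    have h1 := rr_left [1, 2, 1] (RR.sub (fun c => if c = 2 then [3] else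
      if c = 3 then [4] else [c]) hRR)
    rw [f3_sub (e := 1) (by rfl), f3_sub (e := 1) (by rfl)] at h1
    simp only [Nat.mul_one] at h1
    exact h1
  exact (FIC.sup ρ σ).trans ((FIC.le_sup_right _ _) _ _ s1)
    ((FIC.sup ρ σ).trans ((FIC.le_sup_left _ _) _ _ hK) ((FIC.le_sup_right _ _) _ _ s3.symm))

/-- **without the crossing of the last token both `R'` and `L` hold** -/
theorem rcd (H : LL n β) :
    Helper61_MWD.RC' (RR β) ∨ (MWZ.R' n (RR β) ∧ MWZ.L n (RR β)) := by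
  by_cases hr : Helper61_MWD.RC' (RR β)
  · exact Or.inl hr
  · exact Or.inr ⟨pd H hr, pj H hr⟩

end Pool.Agent.MWX.H85
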