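import Pool.Agent.Helper57_MWX.HBn
import Pool.Agent.Helper61_MWD.DispR
import Pool.Agent.Helper32_MVD.GEN
import Pool.Agent.Helper21_MVD.PEN

/-!
# The labels of a light last token in the LR world (block MWX, the RC dash part)

`V i j k l = x^i y x^j t x^k y x^l`.  `PL n β d`: `x^d` crosses the last occurrence of `y`.
-/

set_option autoImplicit false

namespace Pool.Agent.MWX.H85

open Pool.Agent.Helper14_MV Pool.Agent.Helper2_MV Pool.Agent.Helper79_MWD

variable {β : FIC} {n : ℕ}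

/-- `x^d` crosses `y` -/
def PL (n : ℕ) (β : FIC) (d : ℕ) : Prop :=
  RR β (V 0 0 (2 * n + d) (2 * n)) (V 0 0 (2 * n) (2 * n + d))

/-- deletion of both occurrences of `y` and of `t` -/
theorem del_at {i j k l i' j' k' l' : ℕ} (h : RR β (V i j k l) (V i' j' k' l')) :
    RR β (Z (i + j + (k + l))) (Z (i' + j' + (k' + l'))) := by
  have h1 := sub_t [] (del_a h)
  rw [List.nil_append, List.nil_append, ← z_add, ← z_add] at h1
  exact h1

/-- powers of `x` in the second block -/
theorem blk2 {i j : ℕ} (p q : ℕ) (h : RR β (Z i) (Z j)) :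
    RR β (V 0 0 p (q + i)) (V 0 0 p (q + j)) := by
  have h1 := rr_left (1 :: 2 :: (Z p ++ 1 :: Z q)) h
  unfold V
  rw [z_add, z_add]
  simpa only [List.replicate_zero, List.nil_append, List.append_assoc, List.cons_append] using h1

theorem pl_zero : PL n β 0 := RR.refl _

theorem pl_mod (H : LL n β) {d d' : ℕ} (h : PL n β d) (he : d ≡ d' [MOD n]) : PL n β d' := by
  have hn := H.pos
  have e1 : 2 * n + d ≡ 2 * n + d' [MOD n] := Nat.ModEq.add_left _ he
  have a1 := cap_k H (by omega) (by omega) e1 0 0 (2 * n)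
  have a2 := cap_l H (by omega) (by omega) e1 0 0 (2 * n)
  exact RR.tr a1.symm (RR.tr h a2)

theorem pl_add {d d' : ℕ} (h : PL n β d) (h' : PL n β d') : PL n β (d + d') := by
  have h1 := v_mid 0 d' h
  have h2 := v_right d h'
  have e1 : d' + (2 * n + d) = 2 * n + (d + d') := by omega
  have e2 : d' + 2 * n = 2 * n + d' := by omega
  have e3 : 2 * n + d' + d = 2 * n + (d + d') := by omega
  rw [e1, e2] at h1
  rw [e3] at h2
  exact RR.tr h1 h2

theorem pl_mul {d : ℕ} (h : PL n β d) (k : ℕ) : PL n β (k * d) := by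
  induction k with
  | zero => rw [Nat.zero_mul]; exact pl_zero
  | succ k ih => rw [Nat.succ_mul]; exact pl_add ih h

/-- **the label difference crosses** -/
theorem pl_of (H : LL n β) {a g a' g' : ℕ} (h : RR β (V 0 0 a g) (V 0 0 a' g')) :
    PL n β (a + (n - 1) * a') := by
  have hn := H.pos
  obtain ⟨m, rfl⟩ : ∃ m, n = m + 1 := ⟨n - 1, by omega⟩
  rw [Nat.add_sub_cancel]
  have h5 := v_mid 0 (2 * (m + 1) + m * a') (v_right (2 * (m + 1) + a') h)
  have h6 := cap_k H (k := 2 * (m + 1) + m * a' + a') (k' := 2 * (m + 1)) (by omega) (by omega)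
    (by
      have e : 2 * (m + 1) + m * a' + a' = 2 * (m + 1) + (m + 1) * a' := by ring
      rw [e]
      exact (Nat.modEq_iff_dvd' (by omega)).2 ⟨a', by omega⟩ |>.symm) 0 0
    (g' + (2 * (m + 1) + a'))
  have h3 := del_at h
  rw [show 0 + 0 + (a + g) = a + g by omega, show 0 + 0 + (a' + g') = a' + g' by omega] at h3
  have h7 := blk2 (2 * (m + 1)) (2 * (m + 1)) h3.symm
  rw [show 2 * (m + 1) + (a' + g') = g' + (2 * (m + 1) + a') by omega] at h7
  have h8 := v_right (m * (g + a')) (RR.tr h5 (RR.tr h6 h7))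
  have c1 := cap_k H (k := 2 * (m + 1) + (a + m * a')) (k' := 2 * (m + 1) + m * a' + a)
    (by omega) (by omega) (by rw [show 2 * (m + 1) + (a + m * a') = 2 * (m + 1) + m * a' + a by ring])
    0 0 (2 * (m + 1))
  have c2 := cap_l H (l := 2 * (m + 1)) (l' := g + (2 * (m + 1) + a') + m * (g + a'))
    (by omega) (by omega) (by
      have e : g + (2 * (m + 1) + a') + m * (g + a') = 2 * (m + 1) + (m + 1) * (g + a') := by ring
      rw [e]
      exact (Nat.modEq_iff_dvd' (by omega)).2 ⟨g + a', by omega⟩) 0 0 (2 * (m + 1) + m * a' + a)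
  have c3 := cap_l H (l := 2 * (m + 1) + (a + g) + m * (g + a'))
    (l' := 2 * (m + 1) + (a + m * a')) (by omega) (by omega) (by
      have e : 2 * (m + 1) + (a + g) + m * (g + a') =
        2 * (m + 1) + (a + m * a') + (m + 1) * g := by ring
      rw [e]
      exact ((Nat.modEq_iff_dvd' (by omega)).2 ⟨g, by omega⟩).symm) 0 0 (2 * (m + 1))
  unfold PL
  exact RR.tr c1 (RR.tr c2 (RR.tr h8 c3))

/-- the literal crossing from the label group -/
theorem rc_of (H : LL n β) (h : PL n β 1) : Helper61_MWD.RC' (RR β) := by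
  have hn := H.pos
  show RR β (V 0 0 1 3) (V 0 0 2 2)
  have a1 := b1 H 0 2
  have a2 := b1 H n 2
  have a3 := b2 H (n + n) 2
  have a4 := b2 H (n + n) (n + 2)
  rw [show 0 + 1 = 1 by rfl, show 2 + 1 = 3 by rfl] at a1
  rw [show n + 1 = 1 + n by omega, show 2 + 1 = 3 by rfl, show 1 + n + n = n + n + 1 by omega] at a2
  rw [show 2 + 1 = 3 by rfl] at a3
  rw [show n + 2 + 1 = 3 + n by omega] at a4
  have l1 : RR β (V 0 0 1 3) (V 0 0 (n + n + 1) (3 + n + n)) :=
    RR.tr a1 (RR.tr a2 (RR.tr a3 a4))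
  have m1 : RR β (V 0 0 (2 * n + 2) (2 * n + 2)) (V 0 0 (2 * n + 1) (2 * n + 3)) := by
    have h1 := v_mid 0 1 (v_right 2 h)
    rw [show 1 + (2 * n + 1) = 2 * n + 2 by omega, show 1 + 2 * n = 2 * n + 1 by omega,
      show 2 * n + 1 + 2 = 2 * n + 3 by omega] at h1
    exact h1
  have c1 := cap_k H (k := 2 * n + 2) (k' := 2) (by omega) (by omega)
    ((Nat.modEq_iff_dvd' (by omega)).2 ⟨2, by omega⟩).symm 0 0 (2 * n + 2)
  have c2 := cap_l H (l := 2 * n + 2) (l' := 2) (by omega) (by omega)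
    ((Nat.modEq_iff_dvd' (by omega)).2 ⟨2, by omega⟩).symm 0 0 2
  rw [show n + n + 1 = 2 * n + 1 by omega, show 3 + n + n = 2 * n + 3 by omega] at l1
  exact RR.tr l1 (RR.tr m1.symm (RR.tr c1 c2))

/-- without the crossing the label `-1` is not in the group -/
theorem pl_no (H : LL n β) (h : ¬ Helper61_MWD.RC' (RR β)) : ¬ PL n β (n - 1) := by
  intro h1
  apply h
  apply rc_of H
  have hn := H.pos
  have h2 := pl_mul h1 (n - 1)
  refine pl_mod H h2 ?_
  obtain ⟨m, rfl⟩ : ∃ m, n = m + 1 := ⟨n - 1, by omega⟩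
  rw [Nat.add_sub_cancel]
  rcases m with _ | m
  · exact Nat.modEq_one
  · have e : (m + 1) * (m + 1) = 1 + (m + 1 + 1) * m := by ring
    rw [e]
    exact ((Nat.modEq_iff_dvd' (by omega)).2 ⟨m, by omega⟩).symm

/-- an `x` in the first block gives the crossing -/
theorem no_first (H : LL n β) (hr : ¬ Helper61_MWD.RC' (RR β)) {m q m' : ℕ}
    (h : RR β (Z 0 ++ 2 :: Z m) (Z q ++ 2 :: Z m')) : q = 0 := by
  by_contra hq
  apply hr
  apply rc_of H
  have h1 : ∀ j, RR β (V 0 0 j m) (V q 0 j m') := by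
    intro j
    have h2 := sub_t (1 :: 2 :: (Z j ++ [1])) h
    unfold V
    simpa only [List.replicate_zero, List.nil_append, List.append_assoc, List.cons_append] using h2
  have h3 : RR β (V 0 0 1 m) (V 0 0 0 (m + 1)) := by
    have h4 := v_right 1 (h1 0)
    have h5 := st2 H (i := q) (j := 0) (k := 0) (l := m') (by omega)
    exact (RR.tr h4 (RR.tr h5 (h1 1).symm)).symm
  have h6 := pl_of H h3
  rw [Nat.mul_zero, Nat.add_zero] at h6
  exact h6

/-! ### one letter -/

/-- `xtx² ≈ x^(n+1)tx²` in the notation of this file -/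
theorem rd_iff : MWZ.R' n (RR β) ↔ RR β (Z 1 ++ 2 :: Z 2) (Z (n + 1) ++ 2 :: Z 2) := Iff.rfl

theorem rd_of (H : LL n β) {e p e' : ℕ} (he : 2 ≤ e) (hp : 2 ≤ p)
    (h : RR β (Z 1 ++ 2 :: Z e) (Z p ++ 2 :: Z e')) :
    RR β (Z 1 ++ 2 :: Z 2) (Z (n + 1) ++ 2 :: Z 2) := by
  have hn := H.pos
  have h1 := rr_left (Z n) h
  rw [← List.append_assoc, ← List.append_assoc, ← z_add, ← z_add] at h1
  have c1 : RR β (Z (n + p) ++ 2 :: Z e') (Z p ++ 2 :: Z e') :=
    rr_right _ (zcap H (by omega) hp ((Nat.modEq_iff_dvd' (by omega)).2 ⟨1, by omega⟩).symm)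
  have h2 : RR β (Z 1 ++ 2 :: Z e) (Z (n + 1) ++ 2 :: Z e) := (RR.tr h1 (RR.tr c1 h.symm)).symm
  have h3 := rr_right (Z ((n - 1) * e + 2)) h2
  rw [List.append_assoc, List.append_assoc, List.cons_append, ← z_add] at h3
  have c2 : RR β (Z (e + ((n - 1) * e + 2))) (Z 2) := by
    apply zcap H (by omega) (le_refl 2)
    obtain ⟨m, rfl⟩ : ∃ m, n = m + 1 := ⟨n - 1, by omega⟩
    rw [Nat.add_sub_cancel]
    have e1 : e + (m * e + 2) = 2 + (m + 1) * e := by ring
    rw [e1]
    exact ((Nat.modEq_iff_dvd' (by omega)).2 ⟨e, by omega⟩).symm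
  have c3 : ∀ i, RR β (Z i ++ 2 :: Z (e + ((n - 1) * e + 2))) (Z i ++ 2 :: Z 2) := by
    intro i
    have := rr_left (Z i ++ [2]) c2
    simpa only [List.append_assoc, List.cons_append, List.nil_append] using this
  exact RR.tr (c3 1).symm (RR.tr h3 (c3 (n + 1)))

/-- the vector `(1, e)` keeps its first entry if `R'` fails -/
theorem one_e (H : LL n β) (hr : ¬ RR β (Z 1 ++ 2 :: Z 2) (Z (n + 1) ++ 2 :: Z 2)) {e p e' : ℕ}
    (he : 2 ≤ e) (h : RR β (Z 1 ++ 2 :: Z e) (Z p ++ 2 :: Z e')) : p = 1 ∧ 2 ≤ e' := by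
  have hn := H.pos
  have ht : RR β (Z (1 + e)) (Z (p + e')) := by
    have h1 := sub_t [] h
    rwa [List.nil_append, List.nil_append, ← z_add, ← z_add] at h1
  have ht2 := lin0 H.iso ht (by omega)
  rcases p with _ | _ | p
  · exfalso
    apply hr
    have h1 := rr_left (Z 1) h
    rw [← List.append_assoc, ← List.append_assoc, ← z_add, ← z_add] at h1
    exact rd_of H (e := e') (p := 2) (by omega) (le_refl 2) h1.symm
  · refine ⟨rfl, ?_⟩
    rcases e' with _ | _ | e'
    · exfalso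
      have h1 : RR β [0, 2] (Z 1 ++ 2 :: Z e) := h.symm
      have h2 := congrArg List.length (iso_ab H.iso (by decide) h1)
      simp at h2
      omega
    · exfalso
      have h1 : RR β [0, 2, 0] (Z 1 ++ 2 :: Z e) := h.symm
      have h2 := congrArg List.length (iso_aba H.iso (by decide) h1)
      simp at h2
      omega
    · omega
  · exfalso
    exact hr (rd_of H he (by omega) h)

end Pool.Agent.MWX.H85
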