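import Pool.Agent.Helper85_MWX.Lab

/-!
# Without `R'` the last token of `y` is crossed by a residue (block MWX)

Letters `x = 0`, `y = 1`, separators `2`, `3`; `W c d f = y t x^c y x^d s x^f`.
-/

set_option autoImplicit false

namespace Pool.Agent.MWX.H85

open Pool.Agent.Helper14_MV Pool.Agent.Helper2_MV Pool.Agent.Helper79_MWD Pool.Agent.MVD

variable {β : FIC} {n : ℕ}

/-! ### runs of zeros -/

theorem z_le' {e v c : ℕ} {L L' : List ℕ} (hc : c ≠ 0) (h : Z e ++ L = Z v ++ c :: L') : e ≤ v := by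
  induction e generalizing v with
  | zero => omega
  | succ e ih =>
    rcases v with _ | v
    · exfalso
      have h1 : 0 :: (Z e ++ L) = c :: L' := h
      simp only [List.cons.injEq] at h1
      exact hc h1.1.symm
    · have h1 : 0 :: (Z e ++ L) = 0 :: (Z v ++ c :: L') := h
      simp only [List.cons.injEq, true_and] at h1
      have := ih h1
      omega

theorem st {M N R : List ℕ} {e a c : ℕ} (hc : c ≠ 0) (h : M ++ (Z e ++ N) = Z a ++ c :: R) :
    (∃ M', M = Z a ++ c :: M' ∧ R = M' ++ (Z e ++ N)) ∨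
      (∃ m q, M = Z m ∧ N = Z q ++ c :: R ∧ m + e + q = a) := by
  induction M generalizing a with
  | nil =>
    right
    rw [List.nil_append] at h
    have hle := z_le' hc h
    obtain ⟨q, rfl⟩ : ∃ q, a = e + q := ⟨a - e, by omega⟩
    rw [z_add, List.append_assoc] at h
    exact ⟨0, q, rfl, List.append_cancel_left h, by omega⟩
  | cons x M ih =>
    rcases a with _ | a
    · left
      have h1 : x :: (M ++ (Z e ++ N)) = c :: R := h
      simp only [List.cons.injEq] at h1
      obtain ⟨rfl, rfl⟩ := h1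
      exact ⟨M, rfl, rfl⟩
    · have h1 : x :: (M ++ (Z e ++ N)) = 0 :: (Z a ++ c :: R) := h
      simp only [List.cons.injEq] at h1
      obtain ⟨rfl, h2⟩ := h1
      rcases ih h2 with ⟨M', h3, h4⟩ | ⟨m, q, h3, h4, h5⟩
      · left
        exact ⟨M', by rw [h3]; rfl, h4⟩
      · right
        exact ⟨m + 1, q, by rw [h3]; rfl, h4, by omega⟩

theorem z_all {L : List ℕ} {f : ℕ} (h : L = Z f) : ∀ x ∈ L, x = 0 := by
  intro x hx
  rw [h] at hx
  exact List.eq_of_mem_replicate hx

theorem z_of' {L : List ℕ} (h : ∀ x ∈ L, x = 0) : L = Z L.length := List.eq_replicate_of_mem h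

theorem st0 {M N : List ℕ} {e f : ℕ} (h : M ++ (Z e ++ N) = Z f) :
    ∃ m q, M = Z m ∧ N = Z q ∧ m + e + q = f := by
  have ha := z_all h
  refine ⟨M.length, N.length, z_of' (fun x hx => ha x (by simp [hx])),
    z_of' (fun x hx => ha x (by simp [hx])), ?_⟩
  have := congrArg List.length h
  simp only [List.length_append, List.length_replicate] at this
  omega

theorem zeq' {a b c : ℕ} {L L' : List ℕ} (hc : c ≠ 0) (h : Z a ++ c :: L = Z b ++ c :: L') :
    a = b ∧ L = L' := by
  have h1 := z_le' hc h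
  have h2 := z_le' hc h.symm
  have e : a = b := by omega
  subst e
  have h3 := List.append_cancel_left h
  simp only [List.cons.injEq, true_and] at h3
  exact ⟨rfl, h3⟩

theorem zlen {a b : ℕ} (h : Z a = Z b) : a = b := by
  have := congrArg List.length h
  simpa using this

/-! ### the words -/

/-- `y t x^c y x^d s x^f` -/
def W (c d f : ℕ) : List ℕ := 1 :: 2 :: (Z c ++ 1 :: (Z d ++ 3 :: Z f))

theorem w_v5 (c d f : ℕ) : W c d f = V5 1 2 3 0 0 c d f := rfl

/-- change of the length of a run -/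
theorem ins {M N : List ℕ} {c d f e : ℕ} (e' : ℕ) (he : 1 ≤ e)
    (h : M ++ (Z e ++ N) = W c d f) :
    ∃ c' d' f', M ++ (Z e' ++ N) = W c' d' f' ∧ (c' = c ∨ c' + e = c + e') ∧
      c' + d' + f' + e = c + d + f + e' := by
  have h1 : M ++ (Z e ++ N) = Z 0 ++ 1 :: (Z 0 ++ 2 :: (Z c ++ 1 :: (Z d ++ 3 :: Z f))) := h
  rcases st (by omega) h1 with ⟨M1, rfl, h2⟩ | ⟨m, q, _, _, h2⟩
  · rcases st (by omega) h2.symm with ⟨M2, rfl, h3⟩ | ⟨m, q, _, _, h3⟩
    · rcases st (by omega) h3.symm with ⟨M3, rfl, h4⟩ | ⟨m, q, rfl, rfl, h4⟩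
      · rcases st (by omega) h4.symm with ⟨M4, rfl, h5⟩ | ⟨m, q, rfl, rfl, h5⟩
        · obtain ⟨m, q, rfl, rfl, h6⟩ := st0 h5.symm
          refine ⟨c, d, m + e' + q, ?_, Or.inl rfl, by omega⟩
          unfold W
          rw [z_add (m + e') q, z_add m e']
          simp only [List.replicate_zero, List.nil_append, List.append_assoc, List.cons_append]
        · refine ⟨c, m + e' + q, f, ?_, Or.inl rfl, by omega⟩
          unfold W
          rw [z_add (m + e') q, z_add m e']
          simp only [List.replicate_zero, List.nil_append, List.append_assoc, List.cons_append]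
      · refine ⟨m + e' + q, d, f, ?_, Or.inr (by omega), by omega⟩
        unfold W
        rw [z_add (m + e') q, z_add m e']
        simp only [List.replicate_zero, List.nil_append, List.append_assoc, List.cons_append]
    · omega
  · omega

theorem w_filter0 (c d f : ℕ) : (W c d f).filter (fun x => decide (x ≠ 0)) = [1, 2, 1, 3] := by
  unfold W
  rw [List.filter_cons_of_pos (by simp), List.filter_cons_of_pos (by simp), List.filter_append,
    List.filter_cons_of_pos (by simp), List.filter_append, List.filter_cons_of_pos (by simp),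
    z_filter, z_filter, z_filter]
  rfl

theorem z_f1 (i : ℕ) : (Z i).filter (fun x => decide (x ≠ 1)) = Z i := by
  rw [List.filter_eq_self]
  intro x hx
  rw [List.eq_of_mem_replicate hx]
  simp

theorem v5_filter1 (a b c d f : ℕ) : (V5 1 2 3 a b c d f).filter (fun x => decide (x ≠ 1)) =
    Z (a + b) ++ 2 :: (Z (c + d) ++ 3 :: Z f) := by
  unfold V5
  rw [List.filter_append, List.filter_cons_of_neg (by simp), List.filter_append,
    List.filter_cons_of_pos (by simp), List.filter_append, List.filter_cons_of_neg (by simp),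
    List.filter_append, List.filter_cons_of_pos (by simp), z_f1, z_f1, z_f1, z_f1, z_f1, z_add,
    z_add]
  simp only [List.append_assoc]

/-- counting by the filter -/
theorem cnt_f {w L : List ℕ} (h : w.filter (fun x => decide (x ≠ 0)) = L) {x : ℕ} (hx : x ≠ 0) :
    w.count x = L.count x := by
  rw [← h, List.count_filter (by simpa using hx)]

theorem three0 {w : List ℕ} (h : w.filter (fun x => decide (x ≠ 0)) = [1, 2, 1, 3]) {x : ℕ}
    (h3 : 3 ≤ w.count x) : x = 0 := by
  by_contra hx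
  rw [cnt_f h hx] at h3
  simp only [List.count_cons, List.count_nil, beq_iff_eq] at h3
  split_ifs at h3 <;> omega

theorem two01 {w : List ℕ} (h : w.filter (fun x => decide (x ≠ 0)) = [1, 2, 1, 3]) {x : ℕ}
    (h3 : 2 ≤ w.count x) : x = 0 ∨ x = 1 := by
  by_contra hx
  push Not at hx
  rw [cnt_f h hx.1] at h3
  simp only [List.count_cons, List.count_nil, beq_iff_eq] at h3
  split_ifs at h3 <;> omega

/-! ### the three languages -/

def YB (n : ℕ) (β : FIC) (w : List ℕ) : Prop :=
  ∃ c d f, w = W c d f ∧ 2 ≤ c + d + f ∧ PL n β (c + (n - 1))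

def YT (w : List ℕ) : Prop :=
  w.filter (fun x => decide (x ≠ 0)) = [1, 2, 1, 3] ∧
    ∃ f, 2 ≤ f ∧ w.filter (fun x => decide (x ≠ 1)) = Z 0 ++ 2 :: (Z 1 ++ 3 :: Z f)

def YA (w : List ℕ) : Prop := ∃ f, 2 ≤ f ∧ w = W 1 0 f

theorem yab (H : LL n β) {w : List ℕ} (h : YA w) : YB n β w ∧ YT w := by
  obtain ⟨f, hf, rfl⟩ := h
  have hn := H.pos
  refine ⟨⟨1, 0, f, rfl, by omega, ?_⟩, w_filter0 _ _ _, f, hf, ?_⟩
  · refine pl_mod H pl_zero ?_
    exact (Nat.modEq_iff_dvd' (by omega)).2 ⟨1, by omega⟩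
  · rw [w_v5, v5_filter1]

theorem yba (H : LL n β) (hr : ¬ Helper61_MWD.RC' (RR β)) {w : List ℕ} (h : YB n β w)
    (h' : YT w) : YA w := by
  obtain ⟨c, d, f, rfl, _, hp⟩ := h
  obtain ⟨_, f', hf', h1⟩ := h'
  rw [w_v5, v5_filter1] at h1
  obtain ⟨_, h2⟩ := zeq' (by omega) h1
  obtain ⟨h3, h4⟩ := zeq' (by omega) h2
  have h5 := zlen h4
  subst h5
  rcases c with _ | c
  · exfalso
    rw [Nat.zero_add] at hp
    exact pl_no H hr hp
  · have hc : c = 0 := by omega
    have hd : d = 0 := by omega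
    subst hc hd
    exact ⟨f, hf', rfl⟩

theorem v5_V {i j k l m i' j' k' l' m' : ℕ}
    (h : RR β (V5 1 2 3 i j k l m) (V5 1 2 3 i' j' k' l' m')) :
    RR β (V i j k (l + m)) (V i' j' k' (l' + m')) := by
  have h1 := RR.sub (fun c => if c = 3 then [] else [c]) h
  have key : ∀ i j k l m, (V5 1 2 3 i j k l m).flatMap (fun c => if c = 3 then [] else [c]) =
      V i j k (l + m) := by
    intro i j k l m
    unfold V5 V
    rw [List.flatMap_append, List.flatMap_cons, List.flatMap_append, List.flatMap_cons,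
      List.flatMap_append, List.flatMap_cons, List.flatMap_append, List.flatMap_cons,
      z_sub (by rfl), z_sub (by rfl), z_sub (by rfl), z_sub (by rfl), z_sub (by rfl), z_add]
    simp
  rw [key, key] at h1
  exact h1

theorem keepB (H : LL n β) (hr : ¬ Helper61_MWD.RC' (RR β)) {w w' : List ℕ} (h : RR β w w')
    (hw : YB n β w) : YB n β w' := by
  obtain ⟨c, d, f, rfl, h2, hp⟩ := hw
  have hn := H.pos
  obtain ⟨i, j, k, l, m, rfl⟩ := v5_shape H.iso (c := 1) (t := 2) (s := 3) (by omega) (by omega)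
    (by omega) (w_filter0 c d f) h
  rw [w_v5] at h
  have hv := v5_V h
  have h0 : i + j = 0 := no_first H hr (del_a hv)
  have hi : i = 0 := by omega
  have hj : j = 0 := by omega
  subst hi hj
  have ht := lin0 H.iso (del_at hv) (by omega)
  refine ⟨k, l, m, rfl, by omega, ?_⟩
  have h3 := pl_add hp (pl_of H hv.symm)
  refine pl_mod H h3 ?_
  obtain ⟨q, rfl⟩ : ∃ q, n = q + 1 := ⟨n - 1, by omega⟩
  rw [Nat.add_sub_cancel]
  have e : c + q + (k + q * c) = k + q + (q + 1) * c := by ring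
  rw [e]
  exact ((Nat.modEq_iff_dvd' (by omega)).2 ⟨c, by omega⟩).symm

theorem keepT (H : LL n β) (hr : ¬ Helper61_MWD.RC' (RR β))
    (hd : ¬ RR β (Z 1 ++ 2 :: Z 2) (Z (n + 1) ++ 2 :: Z 2)) {w w' : List ℕ} (h : RR β w w')
    (hw : YT w) : YT w' := by
  obtain ⟨h0, f, hf, h1⟩ := hw
  have hf0 := h.filter (fun x => decide (x ≠ 0))
  rw [h0] at hf0
  have hf0' := rig4 H.iso (by decide) (by decide) (by decide) hf0
  obtain ⟨i, j, k, l, m, rfl⟩ := v5_shape H.iso (c := 1) (t := 2) (s := 3) (by omega) (by omega)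
    (by omega) h0 h
  refine ⟨hf0', ?_⟩
  have hf1 := h.filter (fun x => decide (x ≠ 1))
  rw [h1, v5_filter1] at hf1
  have g1 : RR β (Z 0 ++ 2 :: Z (1 + f)) (Z (i + j) ++ 2 :: Z (k + l + m)) := by
    have h2 := RR.sub (fun c => if c = 3 then [] else [c]) hf1
    have key : ∀ a b c, (Z a ++ 2 :: (Z b ++ 3 :: Z c)).flatMap
        (fun c => if c = 3 then [] else [c]) = Z a ++ 2 :: Z (b + c) := by
      intro a b c
      rw [List.flatMap_append, List.flatMap_cons, List.flatMap_append, List.flatMap_cons,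
        z_sub (by rfl), z_sub (by rfl), z_sub (by rfl), z_add]
      simp
    rw [key, key] at h2
    exact h2
  have hij := no_first H hr g1
  have g2 : RR β (Z 1 ++ 2 :: Z f) (Z (i + j + (k + l)) ++ 2 :: Z m) := by
    have h2 := RR.sub (fun c => if c = 3 then [2] else if c = 2 then [] else [c]) hf1
    have key : ∀ a b c, (Z a ++ 2 :: (Z b ++ 3 :: Z c)).flatMap
        (fun c => if c = 3 then [2] else if c = 2 then [] else [c]) = Z (a + b) ++ 2 :: Z c := by
      intro a b c
      rw [List.flatMap_append, List.flatMap_cons, List.flatMap_append, List.flatMap_cons,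
        z_sub (by rfl), z_sub (by rfl), z_sub (by rfl), show Z (a + b) = Z a ++ Z b from z_add a b,
        if_neg (by omega), if_pos rfl, if_pos rfl, List.nil_append, List.append_assoc]
      rfl
    rw [key, key] at h2
    rw [Nat.zero_add] at h2
    exact h2
  obtain ⟨g3, g4⟩ := one_e H hd hf g2
  refine ⟨m, g4, ?_⟩
  rw [v5_filter1, hij]
  have : k + l = 1 := by omega
  rw [this]

theorem keepA (H : LL n β) (hr : ¬ Helper61_MWD.RC' (RR β))
    (hd : ¬ RR β (Z 1 ++ 2 :: Z 2) (Z (n + 1) ++ 2 :: Z 2)) {w w' : List ℕ} (h : RR β w w')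
    (hw : YA w) : YA w' :=
  yba H hr (keepB H hr h (yab H hw).1) (keepT H hr hd h (yab H hw).2)

/-! ### the instances -/

theorem fmz {φ : ℕ → List ℕ} {e : ℕ} (h : φ 0 = Z e) (m : ℕ) :
    (Z m).flatMap φ = Z (m * e) := by
  induction m with
  | zero => rw [Nat.zero_mul]; rfl
  | succ m ih =>
    have e1 : Z (m + 1) = 0 :: Z m := rfl
    rw [e1, List.flatMap_cons, ih, h, ← z_add]
    congr 1
    ring

theorem le3 {l M N w : List ℕ} {φ : ℕ → List ℕ} {z k : ℕ} (h : w = M ++ (l.flatMap φ ++ N))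
    (hk : k ≤ l.count z) {x : ℕ} (hx : x ∈ φ z) : k ≤ w.count x := by
  have := le_count_flatMap φ hx l
  rw [h, List.count_append, List.count_append]
  omega

/-- instances of `R'` keep `YB` -/
theorem stepR (H : LL n β) (φ : ℕ → List ℕ) (M N : List ℕ) :
    YB n β (M ++ ((Z 1 ++ 2 :: Z 2).flatMap φ ++ N)) ↔
      YB n β (M ++ ((Z (n + 1) ++ 2 :: Z 2).flatMap φ ++ N)) := by
  have hn := H.pos
  have c1 : 3 ≤ (Z 1 ++ 2 :: Z 2).count 0 := by decide
  have c2 : 3 ≤ (Z (n + 1) ++ 2 :: Z 2).count 0 := by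
    rw [List.count_append, List.count_cons, List.count_replicate, List.count_replicate]
    simp
  have key : ∀ e, φ 0 = Z e →
      (YB n β (M ++ ((Z 1 ++ 2 :: Z 2).flatMap φ ++ N)) ↔
        YB n β (M ++ ((Z (n + 1) ++ 2 :: Z 2).flatMap φ ++ N))) := by
    intro e he
    have e1 : M ++ ((Z 1 ++ 2 :: Z 2).flatMap φ ++ N) =
        M ++ (Z e ++ (φ 2 ++ (Z (2 * e) ++ N))) := by
      rw [List.flatMap_append, List.flatMap_cons, fmz he, fmz he, Nat.one_mul]
      simp only [List.append_assoc]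
    have e2 : M ++ ((Z (n + 1) ++ 2 :: Z 2).flatMap φ ++ N) =
        M ++ (Z ((n + 1) * e) ++ (φ 2 ++ (Z (2 * e) ++ N))) := by
      rw [List.flatMap_append, List.flatMap_cons, fmz he, fmz he]
      simp only [List.append_assoc]
    rw [e1, e2]
    rcases Nat.eq_zero_or_pos e with rfl | hpos
    · rw [Nat.mul_zero (n + 1)]
    have hz : ∀ L : List ℕ, 2 * e ≤ (φ 2 ++ (Z (2 * e) ++ L)).count 0 := by
      intro L
      rw [List.count_append, List.count_append, List.count_replicate]
      simp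
      omega
    constructor
    · rintro ⟨c, d, f, h, h2, hp⟩
      obtain ⟨c', d', f', g1, g2, g3⟩ := ins ((n + 1) * e) hpos h
      have hne : (n + 1) * e = n * e + e := by ring
      refine ⟨c', d', f', g1, ?_, pl_mod H hp ?_⟩
      · omega
      · apply Nat.ModEq.add_right
        rcases g2 with g2 | g2
        · rw [g2]
        · exact (Nat.modEq_iff_dvd' (by omega)).2 ⟨e, by omega⟩
    · rintro ⟨c, d, f, h, h2, hp⟩
      have hne : (n + 1) * e = n * e + e := by ring
      obtain ⟨c', d', f', g1, g2, g3⟩ := ins e (by omega) h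
      refine ⟨c', d', f', g1, ?_, pl_mod H hp ?_⟩
      · have g4 := congrArg (List.count 0) g1
        rw [List.count_append, List.count_append, List.count_replicate] at g4
        have g5 := hz N
        have g6 : (W c' d' f').count 0 = c' + d' + f' := by
          unfold W
          simp only [List.count_cons, List.count_append, List.count_replicate, beq_self_eq_true,
            if_true]
          simp
          omega
        rw [g6] at g4
        simp only [beq_self_eq_true, if_true] at g4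
        omega
      · apply Nat.ModEq.add_right
        rcases g2 with g2 | g2
        · rw [g2]
        · exact ((Nat.modEq_iff_dvd' (by omega)).2 ⟨e, by omega⟩).symm
  constructor
  · intro h
    have h' := h
    obtain ⟨c, d, f, hw, _, _⟩ := h'
    have hz : ∀ x ∈ φ 0, x = 0 := fun x hx =>
      three0 (w_filter0 c d f) (le3 hw.symm c1 hx)
    exact (key _ (z_of' hz)).1 h
  · intro h
    have h' := h
    obtain ⟨c, d, f, hw, _, _⟩ := h'
    have hz : ∀ x ∈ φ 0, x = 0 := fun x hx =>
      three0 (w_filter0 c d f) (le3 hw.symm c2 hx)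
    exact (key _ (z_of' hz)).2 h

/-- filters of two commuting factors -/
theorem comm_f {A B : List ℕ} (hA : ∀ x ∈ A, x = 0) (hB : ∀ x ∈ B, x = 0 ∨ x = 1) :
    A.filter (fun x => decide (x ≠ 1)) ++ B.filter (fun x => decide (x ≠ 1)) =
      B.filter (fun x => decide (x ≠ 1)) ++ A.filter (fun x => decide (x ≠ 1)) ∧
    A.filter (fun x => decide (x ≠ 0)) ++ B.filter (fun x => decide (x ≠ 0)) =
      B.filter (fun x => decide (x ≠ 0)) ++ A.filter (fun x => decide (x ≠ 0)) := by
  have h1 : A.filter (fun x => decide (x ≠ 0)) = [] := by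
    rw [List.filter_eq_nil_iff]
    intro x hx
    rw [hA x hx]
    simp
  have h2 : A.filter (fun x => decide (x ≠ 1)) =
      Z (A.filter (fun x => decide (x ≠ 1))).length :=
    z_of' (fun x hx => hA x (List.mem_of_mem_filter hx))
  have h3 : B.filter (fun x => decide (x ≠ 1)) =
      Z (B.filter (fun x => decide (x ≠ 1))).length := by
    apply z_of'
    intro x hx
    rw [List.mem_filter] at hx
    rcases hB x hx.1 with h | h
    · exact h
    · rw [h] at hx
      simp at hx
  constructor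
  · rw [h2, h3, ← z_add, ← z_add, Nat.add_comm]
  · rw [h1]
    simp

/-- the exchange of two factors and the filters -/
theorem exch_f {P A B S : List ℕ} (hA : ∀ x ∈ A, x = 0) (hB : ∀ x ∈ B, x = 0 ∨ x = 1) :
    (P ++ (A ++ (B ++ S))).filter (fun x => decide (x ≠ 1)) =
      (P ++ (B ++ (A ++ S))).filter (fun x => decide (x ≠ 1)) ∧
    (P ++ (A ++ (B ++ S))).filter (fun x => decide (x ≠ 0)) =
      (P ++ (B ++ (A ++ S))).filter (fun x => decide (x ≠ 0)) := by
  obtain ⟨h1, h2⟩ := comm_f hA hB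
  simp only [List.filter_append]
  constructor
  · congr 1
    rw [← List.append_assoc, h1, List.append_assoc]
  · congr 1
    rw [← List.append_assoc, h2, List.append_assoc]

/-- the exchange of a single `x` with `y` -/
def Jl : List ℕ := [1, 2, 0, 1, 3, 0, 0]
def Jr : List ℕ := [1, 2, 1, 0, 3, 0, 0]

theorem jl_sub (φ : ℕ → List ℕ) : Jl.flatMap φ =
    φ 1 ++ (φ 2 ++ (φ 0 ++ (φ 1 ++ (φ 3 ++ (φ 0 ++ φ 0))))) := by
  simp [Jl, List.flatMap_cons]

theorem jr_sub (φ : ℕ → List ℕ) : Jr.flatMap φ =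
    φ 1 ++ (φ 2 ++ (φ 1 ++ (φ 0 ++ (φ 3 ++ (φ 0 ++ φ 0))))) := by
  simp [Jr, List.flatMap_cons]

theorem stepT (φ : ℕ → List ℕ) (M N : List ℕ) :
    YT (M ++ (Jl.flatMap φ ++ N)) ↔ YT (M ++ (Jr.flatMap φ ++ N)) := by
  have key : (∀ x ∈ φ 0, x = 0) → (∀ x ∈ φ 1, x = 0 ∨ x = 1) →
      (YT (M ++ (Jl.flatMap φ ++ N)) ↔ YT (M ++ (Jr.flatMap φ ++ N))) := by
    intro h0 h1
    have h2 := exch_f (P := M ++ (φ 1 ++ φ 2)) (S := φ 3 ++ (φ 0 ++ φ 0) ++ N) h0 h1
    have e1 : M ++ (Jl.flatMap φ ++ N) =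
        M ++ (φ 1 ++ φ 2) ++ (φ 0 ++ (φ 1 ++ (φ 3 ++ (φ 0 ++ φ 0) ++ N))) := by
      rw [jl_sub]
      simp only [List.append_assoc]
    have e2 : M ++ (Jr.flatMap φ ++ N) =
        M ++ (φ 1 ++ φ 2) ++ (φ 1 ++ (φ 0 ++ (φ 3 ++ (φ 0 ++ φ 0) ++ N))) := by
      rw [jr_sub]
      simp only [List.append_assoc]
    rw [e1, e2]
    unfold YT
    rw [h2.1, h2.2]
  constructor
  · intro h
    exact (key (fun x hx => three0 h.1 (le3 rfl (z := 0) (by decide) hx))
      (fun x hx => two01 h.1 (le3 rfl (z := 1) (by decide) hx))).1 h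
  · intro h
    exact (key (fun x hx => three0 h.1 (le3 rfl (z := 0) (by decide) hx))
      (fun x hx => two01 h.1 (le3 rfl (z := 1) (by decide) hx))).2 h

/-- a square of `x` in `W 1 0 f` stands in the last block -/
theorem sq_pos {P S : List ℕ} {k f : ℕ} (hk : 2 ≤ k) (h : P ++ (Z k ++ S) = W 1 0 f) :
    ∃ m q, P = [1, 2, 0, 1, 3] ++ Z m ∧ S = Z q := by
  have h1 : P ++ (Z k ++ S) = Z 0 ++ 1 :: (Z 0 ++ 2 :: (Z 1 ++ 1 :: (Z 0 ++ 3 :: Z f))) := h
  rcases st (by omega) h1 with ⟨M1, rfl, h2⟩ | ⟨m, q, _, _, h2⟩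
  · rcases st (by omega) h2.symm with ⟨M2, rfl, h3⟩ | ⟨m, q, _, _, h3⟩
    · rcases st (by omega) h3.symm with ⟨M3, rfl, h4⟩ | ⟨m, q, _, _, h4⟩
      · rcases st (by omega) h4.symm with ⟨M4, rfl, h5⟩ | ⟨m, q, _, _, h5⟩
        · obtain ⟨m, q, rfl, rfl, _⟩ := st0 h5.symm
          exact ⟨m, q, rfl, rfl⟩
        · omega
      · omega
    · omega
  · omega

/-- the exchange of `x^(n+1)` with `y` -/
def Hl (n : ℕ) : List ℕ := 1 :: 2 :: (Z (n + 1) ++ 1 :: 3 :: Z 2)
def Hr (n : ℕ) : List ℕ := 1 :: 2 :: 1 :: (Z (n + 1) ++ 3 :: Z 2)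

theorem hl_sub {φ : ℕ → List ℕ} {e : ℕ} (h : φ 0 = Z e) : (Hl n).flatMap φ =
    φ 1 ++ (φ 2 ++ (Z ((n + 1) * e) ++ (φ 1 ++ (φ 3 ++ Z (2 * e))))) := by
  unfold Hl
  rw [List.flatMap_cons, List.flatMap_cons, List.flatMap_append, List.flatMap_cons,
    List.flatMap_cons, fmz h, fmz h]

theorem hr_sub {φ : ℕ → List ℕ} {e : ℕ} (h : φ 0 = Z e) : (Hr n).flatMap φ =
    φ 1 ++ (φ 2 ++ (φ 1 ++ (Z ((n + 1) * e) ++ (φ 3 ++ Z (2 * e))))) := by
  unfold Hr
  rw [List.flatMap_cons, List.flatMap_cons, List.flatMap_cons, List.flatMap_append,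
    List.flatMap_cons, fmz h, fmz h]

theorem stepA (hn : 1 ≤ n) (φ : ℕ → List ℕ) (M N : List ℕ)
    (h : YA (M ++ ((Hl n).flatMap φ ++ N)) ∨ YA (M ++ ((Hr n).flatMap φ ++ N))) :
    (Hl n).flatMap φ = (Hr n).flatMap φ := by
  have c0 : 3 ≤ (Hl n).count 0 := by
    unfold Hl
    simp only [List.count_cons, List.count_append, List.count_replicate]
    simp
  have c0' : 3 ≤ (Hr n).count 0 := by
    unfold Hr
    simp only [List.count_cons, List.count_append, List.count_replicate]
    simp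
  have c1 : 2 ≤ (Hl n).count 1 := by
    unfold Hl
    simp only [List.count_cons, List.count_append, List.count_replicate]
    simp
  have c1' : 2 ≤ (Hr n).count 1 := by
    unfold Hr
    simp only [List.count_cons, List.count_append, List.count_replicate]
    simp
  have fin : ∀ e, φ 0 = Z e → (∀ x ∈ φ 1, x = 0) → (Hl n).flatMap φ = (Hr n).flatMap φ := by
    intro e he h1
    rw [hl_sub he, hr_sub he, z_of' h1]
    have hc : ∀ (a b : ℕ) (L : List ℕ), Z a ++ (Z b ++ L) = Z b ++ (Z a ++ L) := by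
      intro a b L
      rw [← List.append_assoc, ← List.append_assoc, ← z_add, ← z_add, Nat.add_comm]
    rw [hc ((n + 1) * e)]
  rcases h with ⟨f, hf, h⟩ | ⟨f, hf, h⟩
  · have hz : ∀ x ∈ φ 0, x = 0 := fun x hx => three0 (w_filter0 1 0 f) (le3 h.symm c0 hx)
    have he := z_of' hz
    rcases Nat.eq_zero_or_pos (φ 0).length with h0 | hpos
    · rw [h0] at he
      rw [hl_sub he, hr_sub he, Nat.mul_zero]
      rfl
    · rw [hl_sub he] at h
      have h1 : (M ++ (φ 1 ++ φ 2)) ++ (Z ((n + 1) * (φ 0).length) ++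
          (φ 1 ++ (φ 3 ++ Z (2 * (φ 0).length)) ++ N)) = W 1 0 f := by
        rw [← h]
        simp only [List.append_assoc]
      obtain ⟨m, q, _, h3⟩ := sq_pos (by nlinarith) h1
      exact fin _ he (fun x hx => z_all h3 x (by simp [hx]))
  · have hz : ∀ x ∈ φ 0, x = 0 := fun x hx => three0 (w_filter0 1 0 f) (le3 h.symm c0' hx)
    have hz1 : ∀ x ∈ φ 1, x = 0 ∨ x = 1 := fun x hx =>
      two01 (w_filter0 1 0 f) (le3 h.symm c1' hx)
    have he := z_of' hz
    rcases Nat.eq_zero_or_pos (φ 0).length with h0 | hpos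
    · rw [h0] at he
      rw [hl_sub he, hr_sub he, Nat.mul_zero]
      rfl
    · rw [hr_sub he] at h
      have h1 : (M ++ (φ 1 ++ (φ 2 ++ φ 1))) ++ (Z ((n + 1) * (φ 0).length) ++
          ((φ 3 ++ Z (2 * (φ 0).length)) ++ N)) = W 1 0 f := by
        rw [← h]
        simp only [List.append_assoc]
      obtain ⟨m, q, h3, _⟩ := sq_pos (by nlinarith) h1
      refine fin _ he ?_
      intro x hx
      rcases hz1 x hx with h4 | h4
      · exact h4
      · exfalso
        have h5 : (φ 1).filter (fun x => decide (x ≠ 0)) =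
            List.replicate ((φ 1).filter (fun x => decide (x ≠ 0))).length 1 := by
          apply List.eq_replicate_of_mem
          intro y hy
          rw [List.mem_filter] at hy
          rcases hz1 y hy.1 with h6 | h6
          · rw [h6] at hy
            simp at hy
          · exact h6
        have h6 : 1 ≤ ((φ 1).filter (fun x => decide (x ≠ 0))).length := by
          apply List.length_pos_iff.2
          intro h7
          have h8 : x ∈ (φ 1).filter (fun x => decide (x ≠ 0)) := by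
            rw [List.mem_filter, h4]
            exact ⟨h4 ▸ hx, by simp⟩
          rw [h7] at h8
          simp at h8
        obtain ⟨r, hr⟩ : ∃ r, ((φ 1).filter (fun x => decide (x ≠ 0))).length = r + 1 :=
          ⟨_, (Nat.sub_add_cancel h6).symm⟩
        rw [hr, List.replicate_succ'] at h5
        have h7 := congrArg (List.filter (fun x => decide (x ≠ 0))) h3
        rw [List.filter_append, List.filter_append (l₁ := [1, 2, 0, 1, 3]), z_filter,
          List.filter_append, List.filter_append] at h7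
        have h8 : M.filter (fun x => decide (x ≠ 0)) ++ ((φ 1).filter (fun x => decide (x ≠ 0)) ++
            ((φ 2).filter (fun x => decide (x ≠ 0)) ++ List.replicate r 1)) ++ [1] =
            [1, 2, 1] ++ [3] := by
          rw [h5] at h7
          have h9 : List.filter (fun x => decide (x ≠ 0)) [1, 2, 0, 1, 3] ++ [] =
            [1, 2, 1] ++ [3] := by decide
          rw [h9] at h7
          rw [← h7, h5]
          simp only [List.append_assoc]
        have h9 := (List.append_inj' h8 rfl).2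
        simp at h9

/-- **without `R'` a residue crosses the last token** -/
theorem pd (H : LL n β) (hr : ¬ Helper61_MWD.RC' (RR β)) :
    RR β (Z 1 ++ 2 :: Z 2) (Z (n + 1) ++ 2 :: Z 2) := by
  by_contra hd
  have hn := H.pos
  let J : List ℕ × List ℕ := (Jl, Jr)
  let K : List ℕ × List ℕ := (Hl n, Hr n)
  let R : List ℕ × List ℕ := (Z 1 ++ 2 :: Z 2, Z (n + 1) ++ 2 :: Z 2)
  obtain ⟨ρ, hρ, gρ, mρ, pρ⟩ := H32.gen β (fun e => e = K)
  obtain ⟨σ, hσ, gσ, mσ, pσ⟩ := H32.gen β (fun e => e = R)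
  obtain ⟨τ, hτ, gτ, mτ, pτ⟩ := H32.gen β (fun e => e = J)
  have hJ : RR τ Jl Jr := gτ J rfl
  have hle : ρ ≤ τ := by
    refine mρ τ hτ ?_
    rintro e rfl
    show RR τ (Hl n) (Hr n)
    have step : ∀ i j : ℕ, RR τ (1 :: 2 :: (Z (i + 1) ++ 1 :: (Z j ++ 3 :: Z 2)))
        (1 :: 2 :: (Z i ++ 1 :: (Z (j + 1) ++ 3 :: Z 2))) := by
      intro i j
      have h1 := RR.sub (fun c => if c = 2 then 2 :: Z i else if c = 3 then Z j ++ [3] else [c]) hJ
      have e1 : Jl.flatMap (fun c => if c = 2 then 2 :: Z i else if c = 3 then Z j ++ [3] else [c]) =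
          1 :: 2 :: (Z (i + 1) ++ 1 :: (Z j ++ 3 :: Z 2)) := by
        rw [jl_sub, z_add i 1]
        simp [List.replicate_succ]
      have e2 : Jr.flatMap (fun c => if c = 2 then 2 :: Z i else if c = 3 then Z j ++ [3] else [c]) =
          1 :: 2 :: (Z i ++ 1 :: (Z (j + 1) ++ 3 :: Z 2)) := by
        rw [jr_sub, Nat.add_comm j 1, z_add 1 j]
        simp [List.replicate_succ]
      rw [e1, e2] at h1
      exact h1
    have chain : ∀ k i j : ℕ, RR τ (1 :: 2 :: (Z (i + k) ++ 1 :: (Z j ++ 3 :: Z 2)))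
        (1 :: 2 :: (Z i ++ 1 :: (Z (j + k) ++ 3 :: Z 2))) := by
      intro k
      induction k with
      | zero => intro i j; exact RR.refl _
      | succ k ih =>
        intro i j
        have h1 := step (i + k) j
        have h2 := ih i (j + 1)
        rw [show j + 1 + k = j + (k + 1) by omega] at h2
        exact RR.tr h1 h2
    have h1 := chain (n + 1) 0 0
    rw [Nat.zero_add] at h1
    exact h1
  have kA : ∀ w w', RR ρ w w' → YA w → YA w' := by
    apply pρ
    · intro w w' h hw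
      exact keepA H hr hd h hw
    · rintro e rfl φ M N
      constructor
      · intro h
        have h1 := stepA hn φ M N (Or.inl h)
        change YA (M ++ ((Hr n).flatMap φ ++ N))
        rw [← h1]
        exact h
      · intro h
        have h1 := stepA hn φ M N (Or.inr h)
        change YA (M ++ ((Hl n).flatMap φ ++ N))
        rw [h1]
        exact h
  have kB : ∀ w w', RR σ w w' → YB n β w → YB n β w' := by
    apply pσ
    · intro w w' h hw
      exact keepB H hr h hw
    · rintro e rfl φ M N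
      exact stepR H φ M N
  have kC : ∀ w w', RR τ w w' → YT w → YT w' := by
    apply pτ
    · intro w w' h hw
      exact keepT H hr hd h hw
    · rintro e rfl φ M N
      exact stepT φ M N
  have hA0 : YA Jl := ⟨2, le_refl 2, rfl⟩
  have hA1 : ¬ YA Jr := by
    rintro ⟨f, _, h⟩
    have h1 : 1 :: 2 :: (Z 0 ++ 1 :: (Z 1 ++ 3 :: Z 2)) = 1 :: 2 :: (Z 1 ++ 1 :: (Z 0 ++ 3 :: Z f)) := h
    simp only [List.cons.injEq, true_and] at h1
    have := (zeq' (by omega) h1).1
    omega
  refine H21.pen β H.md ρ σ τ _ _ _ hρ hσ hτ hle kA kB kC (fun w h => yab H h)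
    (fun w h h' => yba H hr h h') Jl Jr hA0 hA1 hJ ?_
  have hR : RR σ (Z 1 ++ 2 :: Z 2) (Z (n + 1) ++ 2 :: Z 2) := gσ R rfl
  have hK : RR ρ (Hl n) (Hr n) := gρ K rfl
  have s1 : RR σ Jl (Hl n) := rr_left [1, 2] (sub_t [1, 3] hR)
  have s3 : RR σ Jr (Hr n) := rr_left [1, 2, 1] (sub_t [3] hR)
  exact (FIC.sup ρ σ).trans ((FIC.le_sup_right _ _) _ _ s1)
    ((FIC.sup ρ σ).trans ((FIC.le_sup_left _ _) _ _ hK) ((FIC.le_sup_right _ _) _ _ s3.symm))

end Pool.Agent.MWX.H85
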